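import Pool.Agent.H242.LD.Stm

/-!
# LD-ARC (helper295 for helper242): distance on the circle from `1/4` and `3/4`
-/

set_option autoImplicit false

namespace Pool.Agent.H295.LD.ARC

open Real Set Metric Filter Topology
open Pool.Agent.H242.LD Pool.Agent.H242.TM

theorem le_dist_iff (ω x c : ℝ) :
    ω ≤ dist (x : UnitAddCircle) (c : UnitAddCircle) ↔ ∀ n : ℤ, ω ≤ |x - c - n| := by
  have h : dist (x : UnitAddCircle) (c : UnitAddCircle) = |x - c - round (x - c)| := by
    rw [dist_eq_norm, ← AddCircle.coe_sub, UnitAddCircle.norm_eq]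
  rw [h]
  constructor
  · intro h1 n
    exact h1.trans (round_le (x - c) n)
  · intro h1
    exact h1 (round (x - c))

theorem ld_ARC : S_ARC := by
  intro ω x hω hω4
  rw [le_dist_iff, le_dist_iff]
  constructor
  · rintro ⟨k, h1, h2⟩
    unfold lo at h1
    unfold hi at h2
    have key : ∀ l : ℤ, ω ≤ |x - ((l : ℝ) / 2 + 1 / 4)| := by
      intro l
      rcases le_or_gt k l with hl | hl
      · have h3 : (k : ℝ) ≤ l := by exact_mod_cast hl
        rw [abs_sub_comm]
        refine le_trans ?_ (le_abs_self _)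
        linarith
      · have h3 : (l : ℝ) + 1 ≤ k := by exact_mod_cast hl
        refine le_trans ?_ (le_abs_self _)
        linarith
    constructor
    · intro n
      have h3 := key (2 * n)
      have e : x - 1 / 4 - n = x - (((2 * n : ℤ) : ℝ) / 2 + 1 / 4) := by
        push_cast
        ring
      rw [e]
      exact h3
    · intro n
      have h3 := key (2 * n + 1)
      have e : x - 3 / 4 - n = x - (((2 * n + 1 : ℤ) : ℝ) / 2 + 1 / 4) := by
        push_cast
        ring
      rw [e]
      exact h3
  · rintro ⟨h1, h2⟩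
    have key : ∀ l : ℤ, ω ≤ |x - ((l : ℝ) / 2 + 1 / 4)| := by
      intro l
      rcases Int.even_or_odd' l with ⟨n, hn | hn⟩
      · have e : x - ((l : ℝ) / 2 + 1 / 4) = x - 1 / 4 - n := by
          rw [hn]
          push_cast
          ring
        rw [e]
        exact h1 n
      · have e : x - ((l : ℝ) / 2 + 1 / 4) = x - 3 / 4 - n := by
          rw [hn]
          push_cast
          ring
        rw [e]
        exact h2 n
    refine ⟨⌊2 * x + 1 / 2⌋, ?_⟩
    obtain ⟨k, hk⟩ : ∃ k : ℤ, k = ⌊2 * x + 1 / 2⌋ := ⟨_, rfl⟩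
    have f1 : (k : ℝ) ≤ 2 * x + 1 / 2 := by
      rw [hk]
      exact Int.floor_le _
    have f2 : 2 * x + 1 / 2 < k + 1 := by
      rw [hk]
      exact Int.lt_floor_add_one _
    rw [← hk]
    have g1 := key (k - 1)
    have g2 := key k
    have e1 : x - (((k - 1 : ℤ) : ℝ) / 2 + 1 / 4) = x - ((k : ℝ) / 2 - 1 / 4) := by
      push_cast
      ring
    rw [e1, abs_of_nonneg (by linarith)] at g1
    rw [abs_sub_comm, abs_of_nonneg (by linarith)] at g2
    constructor
    · unfold lo
      linarith
    · unfold hi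
      linarith

end Pool.Agent.H295.LD.ARC
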